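import Mathlib
import Pool.Agent.Lib.helper21.Queue

set_option autoImplicit false

/-! Reversible two-stack machines with binary junctions: a token enters a junction releasing a
bit on one side and leaves it reading a bit on the other side. -/

namespace Pool.Agent.H.MP_6f9417_lc

open List Relation Function Pool.Agent.Lib.helper21.While Pool.Agent.Lib.helper21.Mach
  Pool.Agent.Lib.helper21.Queue

structure RM (J T : Type) where
  dir : J → Bool
  src : T → Option (J × Bool)
  tgt : T → Option (J × Bool)
  em : T → List Bool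
  ab : T → List Bool
  src_inj : ∀ t t' p, src t = some p → src t' = some p → t = t'
  tgt_inj : ∀ t t' p, tgt t = some p → tgt t' = some p → t = t'

abbrev Cfg (T : Type) := List Bool × T × List Bool

inductive RM.Step {J T : Type} (M : RM J T) : Cfg T → Cfg T → Prop
  | R {t t' j x y} (α β) : M.tgt t = some (j, x) → M.src t' = some (j, y) → M.dir j = true →
      M.Step (α, t, M.ab t ++ y :: β) (x :: α, t', M.em t' ++ β)
  | L {t t' j x y} (α β) : M.tgt t = some (j, x) → M.src t' = some (j, y) → M.dir j = false →
      M.Step (y :: α, t, M.ab t ++ β) (α, t', M.em t' ++ x :: β)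

/-! ### doubling -/

section
variable {J T : Type} [DecidableEq T] (M : RM J T) (h : T) (hh : M.tgt h = none)

def fw (o : Option (J × Bool)) : Option ((J ⊕ J) × Bool) := o.map fun p => (.inl p.1, p.2)
def bw (o : Option (J × Bool)) : Option ((J ⊕ J) × Bool) := o.map fun p => (.inr p.1, p.2)

theorem fw_bw {o o' : Option (J × Bool)} {p} (h1 : fw o = some p) (h2 : bw o' = some p) :
    False := by
  cases o <;> cases o' <;> simp [fw, bw] at h1 h2
  rw [← h1] at h2; simp at h2

theorem fw_fw {o o' : Option (J × Bool)} {p} (h1 : fw o = some p) (h2 : fw o' = some p) :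
    ∃ q, o = some q ∧ o' = some q := by
  cases o <;> cases o' <;> simp [fw] at h1 h2
  rw [← h1] at h2; simp only [Prod.mk.injEq, Sum.inl.injEq] at h2
  exact ⟨_, rfl, congrArg some (Prod.ext h2.1 h2.2)⟩

theorem bw_bw {o o' : Option (J × Bool)} {p} (h1 : bw o = some p) (h2 : bw o' = some p) :
    ∃ q, o = some q ∧ o' = some q := by
  cases o <;> cases o' <;> simp [bw] at h1 h2
  rw [← h1] at h2; simp only [Prod.mk.injEq, Sum.inr.injEq] at h2
  exact ⟨_, rfl, congrArg some (Prod.ext h2.1 h2.2)⟩

def RM.dbl : RM (J ⊕ J) (T ⊕ T) where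
  dir := Sum.elim M.dir fun j => !M.dir j
  src := Sum.elim (fun t => fw (M.src t)) fun t => bw (M.tgt t)
  tgt := Sum.elim (fun t => if t = h then bw (M.src h) else fw (M.tgt t))
    fun t => if t = h then none else bw (M.src t)
  em := Sum.elim M.em M.ab
  ab := Sum.elim (fun t => if t = h then M.em h else M.ab t) M.em
  src_inj := by
    rintro (t | t) (t' | t') p h1 h2
    · obtain ⟨q, h1, h2⟩ := fw_fw h1 h2; rw [M.src_inj _ _ _ h1 h2]
    · exact (fw_bw h1 h2).elim
    · exact (fw_bw h2 h1).elim
    · obtain ⟨q, h1, h2⟩ := bw_bw h1 h2; rw [M.tgt_inj _ _ _ h1 h2]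
  tgt_inj := by
    rintro (t | t) (t' | t') p h1 h2 <;> simp only [Sum.elim_inl, Sum.elim_inr] at h1 h2 <;>
      split_ifs at h1 h2 with a b
    · rw [a, b]
    · exact (fw_bw h2 h1).elim
    · exact (fw_bw h1 h2).elim
    · obtain ⟨q, h1, h2⟩ := fw_fw h1 h2; rw [M.tgt_inj _ _ _ h1 h2]
    · obtain ⟨q, h1, h2⟩ := bw_bw h1 h2; exact (b (M.src_inj _ _ _ h2 h1)).elim
    · exact (fw_bw h1 h2).elim
    · obtain ⟨q, h1, h2⟩ := bw_bw h1 h2; exact (a (M.src_inj _ _ _ h1 h2)).elim
    · exact (fw_bw h2 h1).elim
    · obtain ⟨q, h1, h2⟩ := bw_bw h1 h2; rw [M.src_inj _ _ _ h1 h2]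

def cf (c : Cfg T) : Cfg (T ⊕ T) := (c.1, .inl c.2.1, c.2.2)
def cb (c : Cfg T) : Cfg (T ⊕ T) := (c.1, if c.2.1 = h then .inl h else .inr c.2.1, c.2.2)

include hh

theorem dbl_fw {c d} (s : M.Step c d) : (M.dbl h).Step (cf c) (cf d) := by
  cases s with
  | @R t t' j x y α β h1 h2 h3 =>
    have ht : t ≠ h := fun e => by rw [e, hh] at h1; cases h1
    have := RM.Step.R (M := M.dbl h) (t := .inl t) (t' := .inl t') (j := .inl j) (x := x) (y := y)
      α β (by simp [RM.dbl, ht, h1, fw]) (by simp [RM.dbl, h2, fw]) h3
    simpa [RM.dbl, ht, cf] using this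
  | @L t t' j x y α β h1 h2 h3 =>
    have ht : t ≠ h := fun e => by rw [e, hh] at h1; cases h1
    have := RM.Step.L (M := M.dbl h) (t := .inl t) (t' := .inl t') (j := .inl j) (x := x) (y := y)
      α β (by simp [RM.dbl, ht, h1, fw]) (by simp [RM.dbl, h2, fw]) h3
    simpa [RM.dbl, ht, cf] using this

theorem dbl_bw {c d} (s : M.Step c d) : (M.dbl h).Step (cb h d) (cb h c) := by
  have e1 : ∀ t, (M.dbl h).tgt (if t = h then .inl h else .inr t) = bw (M.src t) := by
    intro t; split_ifs with a <;> simp [RM.dbl, a]
  have e2 : ∀ t, (M.dbl h).ab (if t = h then .inl h else .inr t) = M.em t := by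
    intro t; split_ifs with a <;> simp [RM.dbl, a]
  cases s with
  | @R t t' j x y α β h1 h2 h3 =>
    have ht : t ≠ h := fun e => by rw [e, hh] at h1; cases h1
    have := RM.Step.L (M := M.dbl h) (t := if t' = h then .inl h else .inr t') (t' := .inr t)
      (j := .inr j) (x := y) (y := x) α β (by rw [e1, h2]; rfl) (by simp [RM.dbl, h1, bw])
      (by simp [RM.dbl, h3])
    rw [e2] at this
    simp only [cb, if_neg ht]
    exact this
  | @L t t' j x y α β h1 h2 h3 =>
    have ht : t ≠ h := fun e => by rw [e, hh] at h1; cases h1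
    have := RM.Step.R (M := M.dbl h) (t := if t' = h then .inl h else .inr t') (t' := .inr t)
      (j := .inr j) (x := y) (y := x) α β (by rw [e1, h2]; rfl) (by simp [RM.dbl, h1, bw])
      (by simp [RM.dbl, h3])
    rw [e2] at this
    simp only [cb, if_neg ht]
    exact this

theorem dbl_loop {c d} (s : ReflTransGen M.Step c d) (hd : d.2.1 = h) :
    ReflTransGen (M.dbl h).Step (cf c) (cb h c) := by
  have h1 : ReflTransGen (M.dbl h).Step (cf c) (cf d) := s.lift cf fun _ _ => dbl_fw M h hh
  have h2 : ReflTransGen (M.dbl h).Step (cb h d) (cb h c) := by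
    clear h1 hd
    induction s with
    | refl => exact .refl
    | tail _ e ih => exact .head (dbl_bw M h hh e) ih
  have : cf d = cb h d := by simp [cf, cb, hd]
  exact h1.trans (this ▸ h2)

end

/-! ### a counter machine with history -/

inductive Jn (Q D : Type)
  | fwd (q : Q) (i : D)
  | back (q : Q) (b : Bool) (i : D)
  | chain (o : Option Q) (m : D)

open Jn

section
variable {Q : Type} (M : CM Q) {N : ℕ} (e : Option (Q × Bool) → ZMod N) (q₀ : Q)

abbrev Tk (Q : Type) (N : ℕ) := Option (Jn Q (ZMod N) × Bool)

def tg : Tk Q N → Option (Jn Q (ZMod N) × Bool)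
  | none => some (chain (some q₀) (e none), true)
  | some (chain o m, false) =>
    if m = 0 then o.map fun q => (fwd q 0, false) else some (chain o (m - 1), false)
  | some (chain _ _, true) => none
  | some (fwd q i, y) =>
    if i = M.reg q then some (back q (!y) i, false)
    else if y then some (fwd q i, true) else if i + 1 = 0 then none else some (fwd q (i + 1), false)
  | some (back q b i, true) => some (back q b i, true)
  | some (back q b i, false) =>
    if i = 0 then some (chain (M.nxt q b) (e (some (q, b))), true)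
    else if i - 1 = M.reg q then none else some (back q b (i - 1), false)

noncomputable def pv : Jn Q (ZMod N) × Bool → Tk Q N
  | (chain _ m, true) => (invFun e m).map fun p => (back p.1 p.2 0, false)
  | (chain o m, false) => some (chain o (m + 1), false)
  | (fwd q i, true) => some (fwd q i, true)
  | (fwd q i, false) => if i = 0 then some (chain (some q) 0, false) else some (fwd q (i - 1), false)
  | (back q b i, true) => some (back q b i, true)
  | (back q b i, false) =>
    if i = M.reg q then some (fwd q i, !b) else some (back q b (i + 1), false)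

theorem pv_tg (he : Injective e) (t p) (h : tg M e q₀ t = some p) : pv M e p = t := by
  have hl := leftInverse_invFun he
  rcases t with _ | ⟨⟨q, i⟩ | ⟨q, b, i⟩ | ⟨o, m⟩, _ | _⟩ <;> simp only [tg] at h
  · cases h; simp [pv, hl _]
  · split_ifs at h <;> cases h <;> simp_all [pv]
  · split_ifs at h <;> cases h <;> simp_all [pv]
  · split_ifs at h with a b <;> cases h <;> simp_all [pv, hl _]
  · cases h; rfl
  · split_ifs at h with a
    · cases o <;> cases h; simp [pv, a]
    · cases h; simp [pv]
  · cases h

def nv (e : Option Bool) (n : ℕ) : ℕ :=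
  match e with
  | none => n
  | some true => n + 1
  | some false => n - 1

def emt : Tk Q N → List Bool
  | some (chain _ m, _) => if m = 0 then [] else [false]
  | some (fwd q i, y) => if i = M.reg q then
      (if y then replicate (nv (M.eff q false) 1) true
        else replicate (nv (M.eff q true) 0) true ++ [false]) else []
  | some (back _ _ i, false) => if i = 0 then [false] else []
  | _ => []

def abs : Tk Q N → List Bool
  | some (back q _ i, false) => if i = M.reg q then [false] else []
  | _ => []

noncomputable def hm (he : Injective e) : RM (Jn Q (ZMod N)) (Tk Q N) where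
  dir | back _ _ _ => false | _ => true
  src := id
  tgt := tg M e q₀
  em := emt M
  ab := abs M
  src_inj := fun _ _ _ h1 h2 => h1.trans h2.symm
  tgt_inj := fun _ _ p h1 h2 => (pv_tg M e q₀ he _ p h1).symm.trans (pv_tg M e q₀ he _ p h2)

def blk (ns : List ℕ) : List Bool := ns.flatMap fun n => replicate n true ++ [false]

def lft (ns : List ℕ) (α : List Bool) : List Bool :=
  ns.foldl (fun α n => replicate n true ++ false :: α) α

variable (he : Injective e)

theorem stepR {t j x} (y α β) (h1 : tg M e q₀ t = some (j, x)) (h2 : (hm M e q₀ he).dir j = true) :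
    (hm M e q₀ he).Step (α, t, abs M t ++ y :: β) (x :: α, some (j, y), emt M (some (j, y)) ++ β) :=
  RM.Step.R (M := hm M e q₀ he) α β h1 rfl h2

theorem stepL {t j x} (y α β) (h1 : tg M e q₀ t = some (j, x)) (h2 : (hm M e q₀ he).dir j = false) :
    (hm M e q₀ he).Step (y :: α, t, abs M t ++ β) (α, some (j, y), emt M (some (j, y)) ++ x :: β) :=
  RM.Step.L (M := hm M e q₀ he) α β h1 rfl h2

theorem scanR (q : Q) (i : ZMod N) (hi : i ≠ M.reg q) (n : ℕ) (β) : ∀ t x α,
    tg M e q₀ t = some (fwd q i, x) → abs M t = [] →
    ReflTransGen (hm M e q₀ he).Step (α, t, replicate n true ++ false :: β)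
      (replicate n true ++ x :: α, some (fwd q i, false), β) := by
  induction n with
  | zero =>
    intro t x α h1 h2
    simpa [h2, emt, hi] using ReflTransGen.single (stepR M e q₀ he false α β h1 rfl)
  | succ n ih =>
    intro t x α h1 h2
    have s := stepR M e q₀ he true α (replicate n true ++ false :: β) h1 rfl
    simp only [h2, emt, hi, if_false, nil_append] at s
    have := ih (some (fwd q i, true)) true (x :: α) (by simp [tg, hi]) rfl
    rw [replicate_succ, cons_append, ← replicate_succ]
    rw [replicate_succ' (n := n), append_assoc]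
    exact .head (by simpa [replicate_succ] using s) this

theorem scanL (q : Q) (b) (i : ZMod N) (n : ℕ) (α) : ∀ t x β,
    tg M e q₀ t = some (back q b i, x) →
    ReflTransGen (hm M e q₀ he).Step (replicate n true ++ false :: α, t, abs M t ++ β)
      (α, some (back q b i, false),
        emt M (some (back q b i, false)) ++ (replicate n true ++ x :: β)) := by
  induction n with
  | zero => exact fun t x β h1 => .single (stepL M e q₀ he false α β h1 rfl)
  | succ n ih =>
    intro t x β h1
    have s := stepL M e q₀ he true (replicate n true ++ false :: α) β h1 rfl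
    have := ih (some (back q b i, true)) true (x :: β) rfl
    refine .head (by simpa [replicate_succ] using s) ?_
    rw [replicate_succ' (n := n), append_assoc]
    exact this

variable (hN : ∀ q, M.reg q < N)
include hN

theorem cast_ne {q : Q} {i j : ℕ} (hi : i ≤ M.reg q) (hj : j ≤ M.reg q) (h : i ≠ j) :
    (i : ZMod N) ≠ j := fun e => h (by
  have := hN q
  have h2 := (ZMod.natCast_eq_natCast_iff' _ _ _).1 e
  rwa [Nat.mod_eq_of_lt (by omega), Nat.mod_eq_of_lt (by omega)] at h2)

theorem sweepR (q : Q) (β) (ns : List ℕ) : ∀ (i : ℕ) t α, i + ns.length = M.reg q →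
    tg M e q₀ t = some (fwd q (i : ZMod N), false) → abs M t = [] →
    ∃ t', tg M e q₀ t' = some (fwd q (M.reg q : ZMod N), false) ∧ abs M t' = [] ∧
      ReflTransGen (hm M e q₀ he).Step (α, t, blk ns ++ β) (lft ns α, t', β) := by
  induction ns with
  | nil => intro i t α h0 h1 h2; exact ⟨t, by rw [h1, ← h0]; rfl, h2, .refl⟩
  | cons n ns ih =>
    intro i t α h0 h1 h2
    rw [length_cons] at h0
    have a : (i : ZMod N) ≠ M.reg q := cast_ne M hN (q := q) (by omega) le_rfl (by omega)
    have b : (i : ZMod N) + 1 ≠ 0 := by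
      simpa using cast_ne M hN (q := q) (i := i + 1) (j := 0) (by omega) (by omega) (by omega)
    obtain ⟨t', h3, h4, h5⟩ := ih (i + 1) (some (fwd q i, false)) (replicate n true ++ false :: α)
      (by omega) (by simp [tg, a, b]) rfl
    refine ⟨t', h3, h4, .trans ?_ h5⟩
    simpa [blk] using scanR M e q₀ he q i a n (blk ns ++ β) t false α h1 h2

theorem sweepL (q : Q) (b) (α) (ns : List ℕ) : ∀ β, ns.length ≤ M.reg q →
    ReflTransGen (hm M e q₀ he).Step (lft ns α, some (back q b ns.length, false),
      emt M (some (back q b (ns.length : ZMod N), false)) ++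
        (abs M (some (back q b (ns.length : ZMod N), false)) ++ β))
      (α, some (back q b 0, false),
        abs M (some (back q b (0 : ZMod N), false)) ++ false :: (blk ns ++ β)) := by
  induction ns using List.reverseRecOn with
  | nil =>
    intro β _
    simp only [emt, abs, length_nil, Nat.cast_zero, if_true, lft, blk]
    split_ifs <;> exact .refl
  | append_singleton ns n ih =>
    intro β h
    simp only [length_append, length_singleton] at h ⊢
    have a : (ns.length : ZMod N) ≠ M.reg q := cast_ne M hN (q := q) (by omega) le_rfl (by omega)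
    have b' : ((ns.length + 1 : ℕ) : ZMod N) ≠ 0 := by
      simpa using cast_ne M hN (q := q) (i := ns.length + 1) (j := 0) h (by omega) (by omega)
    have s := scanL M e q₀ he q b ns.length n (lft ns α)
      (some (back q b (ns.length + 1 : ℕ), false)) false β (by
        simp only [tg, b', if_false]; simp [a])
    have := ih (replicate n true ++ false :: β) (by omega)
    simp only [abs, a, if_false, nil_append] at this
    have e1 : emt M (some (back q b ((ns.length + 1 : ℕ) : ZMod N), false)) = [] := by
      simp only [emt, b', if_false]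
    rw [e1, nil_append]
    have e2 : lft (ns ++ [n]) α = replicate n true ++ false :: lft ns α := by simp [lft]
    rw [e2]
    refine s.trans ?_
    simpa [blk, abs] using this

omit hN

theorem chainR [NeZero N] (o : Option Q) (β) (m : ℕ) : ∀ t x α, m < N →
    tg M e q₀ t = some (chain o (m : ZMod N), x) → ∃ α', TransGen (hm M e q₀ he).Step
      (α, t, abs M t ++ false :: β) (α', some (chain o 0, false), β) := by
  induction m with
  | zero =>
    intro t x α _ h1
    exact ⟨_, by simpa [emt] using TransGen.single (stepR M e q₀ he false α β h1 rfl)⟩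
  | succ m ih =>
    intro t x α hm h1
    have a : ((m + 1 : ℕ) : ZMod N) ≠ 0 := by
      rw [Ne, ZMod.natCast_eq_zero_iff]
      exact Nat.not_dvd_of_pos_of_lt m.succ_pos hm
    obtain ⟨α', h2⟩ := ih (some (chain o (m + 1 : ℕ), false)) false (x :: α) (by omega)
      (by simp only [tg, a, if_false]; simp)
    have s := stepR M e q₀ he false α β h1 rfl
    simp only [emt, a, if_false] at s
    exact ⟨α', .head s h2⟩

theorem chainR' [NeZero N] (o : Option Q) (β) (m : ZMod N) (t x α)
    (h : tg M e q₀ t = some (chain o m, x)) : ∃ α', TransGen (hm M e q₀ he).Step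
      (α, t, abs M t ++ false :: β) (α', some (chain o 0, false), β) :=
  chainR M e q₀ he o β m.val t x α (ZMod.val_lt m) (by rw [h, ZMod.natCast_zmod_val])

include hN

theorem home_step [NeZero N] (q : Q) (pre post : List ℕ) (n : ℕ) (h : pre.length = M.reg q) (α) :
    ∃ α', TransGen (hm M e q₀ he).Step
      (α, some (chain (some q) 0, false), blk (pre ++ n :: post))
      (α', some (chain (M.nxt q (decide (n = 0))) 0, false),
        blk (pre ++ nv (M.eff q (decide (n = 0))) n :: post)) := by
  obtain ⟨t, h1, h2, h3⟩ := sweepR M e q₀ he hN q (blk (n :: post)) pre 0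
    (some (chain (some q) 0, false)) α (by omega) (by simp [tg]) rfl
  have h4 : ∃ y, tg M e q₀ (some (fwd q (M.reg q : ZMod N), y)) =
      some (back q (decide (n = 0)) (pre.length : ZMod N), false) ∧
      (hm M e q₀ he).Step (lft pre α, t, blk (n :: post))
      (false :: lft pre α, some (fwd q (M.reg q : ZMod N), y),
        blk (nv (M.eff q (decide (n = 0))) n :: post)) := by
    cases n with
    | zero =>
      exact ⟨false, by simp [tg, h], by
        simpa [h2, emt, blk] using stepR M e q₀ he false (lft pre α) (blk post) h1 rfl⟩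
    | succ n =>
      refine ⟨true, by simp [tg, h], ?_⟩
      have s := stepR M e q₀ he true (lft pre α) (blk (n :: post)) h1 rfl
      simp only [h2, emt, if_true, nil_append] at s
      have e1 : blk ((n + 1) :: post) = true :: blk (n :: post) := by simp [blk, replicate_succ]
      have e2 : blk (nv (M.eff q false) (n + 1) :: post) =
          replicate (nv (M.eff q false) 1) true ++ blk (n :: post) := by
        simp only [blk, flatMap_cons, ← append_assoc, ← replicate_add]
        congr 3
        rcases M.eff q false with _ | _ | _ <;> simp [nv] <;> omega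
      simpa only [e1, e2, Nat.add_eq_zero_iff, one_ne_zero, and_false, decide_false] using s
  obtain ⟨y, h5, h6⟩ := h4
  have h7 := stepL M e q₀ he false (lft pre α) (blk (nv (M.eff q (decide (n = 0))) n :: post)) h5 rfl
  have h8 := sweepL M e q₀ he hN q (decide (n = 0)) α pre
    (blk (nv (M.eff q (decide (n = 0))) n :: post)) h.le
  obtain ⟨α', h9⟩ := chainR' M e q₀ he (M.nxt q (decide (n = 0)))
    (blk pre ++ blk (nv (M.eff q (decide (n = 0))) n :: post)) _
    (some (back q (decide (n = 0)) 0, false)) true α (by simp [tg]; rfl)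
  refine ⟨α', ?_⟩
  simp only [blk, flatMap_append] at h3 h6 h7 h8 h9 ⊢
  refine TransGen.trans_right (h3.trans (.head h6 (.head h7 ?_))) h9
  simpa [abs, h] using h8

theorem cm_step [NeZero N] (q : Q) (s : St) (α) : ∃ α' s', TransGen (hm M e q₀ he).Step
      (α, some (chain (some q) 0, false), blk ((range N).map s))
      (α', some (chain ((M.step 0 (q, s)).map Prod.fst) 0, false), blk ((range N).map s')) ∧
      ∀ c, M.step 0 (q, s) = some c → c.2 = s' := by
  have hr : M.reg q < ((range N).map s).length := by simpa using hN q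
  obtain ⟨α', h⟩ := home_step M e q₀ he hN q (((range N).map s).take (M.reg q))
    (((range N).map s).drop (M.reg q + 1)) (s (M.reg q)) (by simp [(hN q).le]) α
  have ht : M.tst 0 (q, s) = decide (s (M.reg q) = 0) := by simp [CM.tst, CM.thr]
  refine ⟨α', app (M.eff q (decide (s (M.reg q) = 0))) (M.reg q) s, ?_, ?_⟩
  · have e1 : (range N).map s = ((range N).map s).take (M.reg q) ++
        s (M.reg q) :: ((range N).map s).drop (M.reg q + 1) := by
      conv_lhs => rw [← take_append_drop (M.reg q) ((range N).map s), drop_eq_getElem_cons hr]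
      simp
    have e2 : (M.step 0 (q, s)).map Prod.fst = M.nxt q (decide (s (M.reg q) = 0)) := by
      simp [CM.step, ht, Function.comp_def]
    have e3 : (range N).map (app (M.eff q (decide (s (M.reg q) = 0))) (M.reg q) s) =
        ((range N).map s).take (M.reg q) ++ nv (M.eff q (decide (s (M.reg q) = 0))) (s (M.reg q)) ::
          ((range N).map s).drop (M.reg q + 1) := by
      rw [← set_eq_take_cons_drop _ hr]
      apply ext_getElem (by simp)
      intro i h1 h2
      simp only [getElem_map, getElem_range, getElem_set]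
      generalize M.eff q (decide (s (M.reg q) = 0)) = ef
      by_cases hi : M.reg q = i
      · subst hi; rcases ef with _ | _ | _ <;> simp [app, nv]
      · rcases ef with _ | _ | _ <;> simp [app, hi, Ne.symm hi]
    rw [e2, e3]
    rw [← e1] at h
    exact h
  · intro c hc
    simp only [CM.step, ht, Option.map_eq_some_iff] at hc
    obtain ⟨_, -, rfl⟩ := hc
    rfl

end

theorem exists_rm : ∃ (J T : Type) (_ : Finite J) (_ : Nonempty J) (_ : Finite T) (M : RM J T)
    (i f : T) (V : List Bool) (p : ℕ → Prop), ¬ ComputablePred p ∧ M.src i = none ∧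
    M.tgt f = none ∧ (∃ q, M.src f = some q) ∧ ∀ n,
      (p n → ReflTransGen M.Step ([], i, false :: (replicate n true ++ V))
        ([], f, false :: (replicate n true ++ V))) ∧
      (¬ p n → ∃ S : Set (Cfg T), ([], i, false :: (replicate n true ++ V)) ∈ S ∧
        (∀ c ∈ S, c.2.1 ≠ f) ∧ ∀ c ∈ S, ∃ d ∈ S, TransGen M.Step c d) := by
  classical
  obtain ⟨Q, _, M, q₀, hM⟩ := exists_cm0
  obtain ⟨K, hK⟩ := (Set.finite_range M.reg).bddAbove
  obtain ⟨N', hN'⟩ : ∃ N', N' = K + Nat.card (Option (Q × Bool)) := ⟨_, rfl⟩
  have hN : ∀ q, M.reg q < N' + 1 := fun q => by have := hK ⟨q, rfl⟩; omega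
  obtain ⟨e, he⟩ : ∃ e : Option (Q × Bool) → ZMod (N' + 1), Injective e := by
    have := Fintype.ofFinite (Option (Q × Bool))
    obtain ⟨e⟩ := Function.Embedding.nonempty_of_card_le (α := Option (Q × Bool))
      (β := ZMod (N' + 1)) (by rw [ZMod.card, ← Nat.card_eq_fintype_card]; omega)
    exact ⟨e, e.injective⟩
  have : Finite (Jn Q (ZMod (N' + 1))) := Finite.of_surjective
    (fun z : (Q × ZMod (N' + 1)) ⊕ (Q × Bool × ZMod (N' + 1)) ⊕ (Option Q × ZMod (N' + 1)) =>
      (match z with
        | .inl z => fwd z.1 z.2
        | .inr (.inl z) => back z.1 z.2.1 z.2.2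
        | .inr (.inr z) => chain z.1 z.2 : Jn Q (ZMod (N' + 1)))) (by
      rintro (⟨q, i⟩ | ⟨q, b, i⟩ | ⟨o, m⟩)
      exacts [⟨.inl (q, i), rfl⟩, ⟨.inr (.inl (q, b, i)), rfl⟩, ⟨.inr (.inr (o, m)), rfl⟩])
  let R := hm M e q₀ he
  let h : Tk Q (N' + 1) := some (chain none 0, false)
  have hh : R.tgt h = none := by simp [R, hm, h, tg]
  let V := false :: blk (replicate N' 0)
  have hV : ∀ n, replicate n true ++ V = blk ((range (N' + 1)).map (init n)) := by
    intro n
    have : (range (N' + 1)).map (init n) = n :: replicate N' 0 := by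
      rw [range_succ_eq_map, map_cons, List.map_map]
      congr 1
      exact eq_replicate_iff.2 ⟨by simp, by simp [init]⟩
    simp [this, V, blk]
  have h0 : ∀ β, ∃ α, TransGen R.Step ([], none, false :: β)
      (α, some (chain (some q₀) 0, false), β) := fun β =>
    chainR' M e q₀ he (some q₀) β (e none) none true [] rfl
  refine ⟨_, _, inferInstance, ⟨.inl (chain none 0)⟩, inferInstance, R.dbl h, .inl none, .inr none,
    V, _, hM, rfl, by simp [RM.dbl, h, R, hm, bw], ⟨_, rfl⟩, fun n => ⟨fun hp => ?_, fun hp => ?_⟩⟩
  · have key : ∀ c, Halts (M.step 0) c → ∀ α, ∃ d, ReflTransGen R.Step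
        (α, some (chain (some c.1) 0, false), blk ((range (N' + 1)).map c.2)) d ∧ d.2.1 = h := by
      intro c hc
      induction hc with
      | @stop c h1 =>
        intro α
        obtain ⟨α', s', h2, -⟩ := cm_step M e q₀ he hN c.1 c.2 α
        rw [h1] at h2
        exact ⟨_, h2.to_reflTransGen, rfl⟩
      | @go c c' h1 _ ih =>
        intro α
        obtain ⟨α', s', h2, h3⟩ := cm_step M e q₀ he hN c.1 c.2 α
        rw [h1, ← h3 c' h1] at h2
        obtain ⟨d, h4, h5⟩ := ih α'
        exact ⟨d, h2.to_reflTransGen.trans h4, h5⟩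
    obtain ⟨α, h1⟩ := h0 (replicate n true ++ V)
    obtain ⟨d, h2, h3⟩ := key _ hp α
    rw [← hV] at h2
    simpa [cf, cb, h] using dbl_loop R h hh (h1.to_reflTransGen.trans h2) h3
  · refine ⟨{c | c = cf ([], none, false :: (replicate n true ++ V)) ∨
      ∃ α q s, ¬ Halts (M.step 0) (q, s) ∧ c = cf (α, some (chain (some q) 0, false),
        blk ((range (N' + 1)).map s))}, Or.inl rfl, ?_, ?_⟩
    · rintro _ (rfl | ⟨α, q, s, -, rfl⟩) <;> simp [cf]
    · rintro _ (rfl | ⟨α, q, s, h1, rfl⟩)
      · obtain ⟨α, h1⟩ := h0 (replicate n true ++ V)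
        exact ⟨_, Or.inr ⟨α, q₀, init n, hp, by rw [hV]⟩, h1.lift cf fun _ _ => dbl_fw R h hh⟩
      · obtain ⟨α', s', h2, h3⟩ := cm_step M e q₀ he hN q s α
        cases h4 : M.step 0 (q, s) with
        | none => exact (h1 (.stop h4)).elim
        | some c =>
          rw [h4, ← h3 c h4] at h2
          exact ⟨_, Or.inr ⟨α', c.1, c.2, fun h5 => h1 (.go h4 h5), rfl⟩,
            h2.lift cf fun _ _ => dbl_fw R h hh⟩

end Pool.Agent.H.MP_6f9417_lc
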