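import Mathlib
import Pool.Agent.H.MP_6f9417_lc.RM

set_option autoImplicit false

/-! Time-multiplexed simulation of a reversible machine by a pair of morphisms. -/

namespace Pool.Agent.H.MP_6f9417_lc

open List Relation Function

def Crit {A B : Type} (l : A → List B) : Prop :=
  ∃ m : A → B, (∀ a, m a ∈ l a) ∧ ∀ a a', m a ∈ l a' → m a' ∈ l a → a = a'

def Round {A B : Type} (l r : A → List B) (w w' : List B) : Prop :=
  ∃ u : List A, w = u.flatMap l ∧ w' = u.flatMap r

theorem Crit.sum {A A' B : Type} {f : A → List B} {g : A' → List B} (hf : Crit f) (hg : Crit g)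
    (h : ∀ a b y, y ∈ f a → y ∈ g b → False) : Crit (Sum.elim f g) := by
  obtain ⟨m, h1, h2⟩ := hf
  obtain ⟨m', h3, h4⟩ := hg
  refine ⟨Sum.elim m m', by rintro (a | a); exacts [h1 a, h3 a], ?_⟩
  rintro (a | a) (b | b) x y
  · rw [h2 a b x y]
  · exact (h _ _ _ (h1 a) x).elim
  · exact (h _ _ _ x (h3 a)).elim
  · rw [h4 a b x y]

theorem flat_inj {A B : Type} {l : A → List B} (h0 : ∀ a, l a ≠ [])
    (h : ∀ a a' s s', l a ++ s = l a' ++ s' → a = a') :
    ∀ u u' : List A, u.flatMap l = u'.flatMap l → u = u' := by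
  intro u
  induction u with
  | nil =>
    rintro (_ | ⟨a, u'⟩) e
    · rfl
    · simp [h0] at e
  | cons a u ih =>
    rintro (_ | ⟨a', u'⟩) e
    · simp [h0] at e
    · simp only [flatMap_cons] at e
      obtain rfl := h _ _ _ _ e
      rw [ih u' (append_cancel_left e)]

theorem det_not_reach {α : Type} {R : α → α → Prop} (det : ∀ a b c, R a b → R a c → b = c)
    {S F : Set α} (hS : ∀ w ∈ S, ∃ w' ∈ S, TransGen R w w') (hF : ∀ w ∈ F, ∀ w', R w w' → w' ∈ F)
    (hd : ∀ w ∈ S, w ∉ F) {w₀ w₁ : α} (h0 : w₀ ∈ S) (h1 : w₁ ∈ F) : ¬ ReflTransGen R w₀ w₁ := by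
  intro h
  have : ¬ ∃ w' ∈ S, ReflTransGen R w₀ w' := by
    clear h0
    induction h using ReflTransGen.head_induction_on with
    | refl =>
      rintro ⟨w', h2, h3⟩
      refine hd _ h2 ?_
      clear h2
      induction h3 with
      | refl => exact h1
      | tail _ e ih => exact hF _ ih _ e
    | head e _ ih =>
      rintro ⟨w', h2, h3⟩
      obtain ⟨w'', h4, h5⟩ := hS _ h2
      obtain ⟨v, h6, h7⟩ := TransGen.head'_iff.1 (TransGen.trans_right h3 h5)
      exact ih ⟨w'', h4, det _ _ _ e h6 ▸ h7⟩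
  exact this ⟨_, h0, .refl⟩

inductive It (T : Type) | cell (x : Bool) | tok (t : T) | lw | rw

inductive Sy (J T : Type) | A (p : J) (i : It T) | B (p : J) (i : It T) | N (p : J) | Hd (p : J)

open It Sy Classical

section
variable {J T : Type} (port : T → Option (J × Bool)) (w : T → List Bool)

noncomputable def act (p : J) : It T → Option Bool
  | tok t => (port t).bind fun q => if q.1 = p then some q.2 else none
  | _ => none

theorem act_tok {p t x} : act port p (tok t) = some x ↔ port t = some (p, x) := by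
  simp only [act]
  rcases port t with _ | ⟨q, y⟩
  · simp
  · by_cases h : q = p <;> simp [h]

theorem act_some {p i x} (h : act port p i = some x) : ∃ t, i = tok t ∧ port t = some (p, x) := by
  cases i with
  | tok t => exact ⟨t, rfl, (act_tok port).1 h⟩
  | _ => cases h

def wd : It T → List Bool
  | tok t => w t
  | _ => []

noncomputable def single (c p : J) (i : It T) : List (Sy J T) :=
  A c i :: if (act port p i).isSome then (wd w i).map fun x => A c (cell x) else []

noncomputable def pair (d : Bool) (p : J) (i : It T) : List (Sy J T) :=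
  match act port p i with
  | some x => if d then [B p (cell x), Hd p] else [Hd p, B p (cell x)]
  | none => if i = (if d then rw else lw) then [B p i] else
      if d then [B p i, N p] else [N p, B p i]

theorem mem_single {c p i y} (h : y ∈ single port w c p i) :
    y = A c i ∨ (∃ x, y = A c (cell x)) ∧ ∃ t, i = tok t := by
  rcases mem_cons.1 h with h | h
  · exact Or.inl h
  · split_ifs at h with a
    · obtain ⟨x, hx⟩ := Option.isSome_iff_exists.1 a
      obtain ⟨t, ht, -⟩ := act_some port hx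
      obtain ⟨z, -, rfl⟩ := mem_map.1 h
      exact Or.inr ⟨⟨z, rfl⟩, t, ht⟩
    · cases h

theorem mem_pair {d p i y} (h : y ∈ pair port d p i) :
    (∃ x, act port p i = some x ∧ (y = B p (cell x) ∨ y = Hd p)) ∨
      (act port p i = none ∧ (y = B p i ∨ y = N p)) := by
  unfold pair at h
  rcases e : act port p i with _ | x <;> simp only [e] at h <;> split_ifs at h <;> simp at h <;>
    simp <;> tauto

theorem crit_single {col : J → J} (hc : Injective col) :
    Crit fun z : J × It T => single port w (col z.1) z.1 z.2 := by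
  refine ⟨fun z => A (col z.1) z.2, fun z => mem_cons_self, ?_⟩
  rintro ⟨p, i⟩ ⟨p', i'⟩ h1 h2
  rcases mem_single port w h1 with h1 | ⟨⟨x, h1⟩, -⟩
  · simp only [A.injEq] at h1; rw [hc h1.1, h1.2]
  · rcases mem_single port w h2 with h2 | ⟨-, t, h2⟩
    · simp only [A.injEq] at h2; rw [hc h2.1, h2.2]
    · simp only [A.injEq] at h1 h2; rw [h1.2] at h2; cases h2

variable (hp : ∀ t t' q, port t = some q → port t' = some q → t = t')
include hp

theorem act_inj {p i i' x} (h : act port p i = some x) (h' : act port p i' = some x) : i = i' := by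
  obtain ⟨t, rfl, h1⟩ := act_some port h
  obtain ⟨t', rfl, h2⟩ := act_some port h'
  rw [hp _ _ _ h1 h2]

theorem crit_pair (d : J → Bool) : Crit fun z : J × It T => pair port (d z.1) z.1 z.2 := by
  refine ⟨fun z => match act port z.1 z.2 with
    | some false => Hd z.1
    | some true => B z.1 (cell true)
    | none => if z.2 = cell true then N z.1 else B z.1 z.2, ?_, ?_⟩
  · rintro ⟨p, i⟩
    simp only [pair]
    rcases act port p i with _ | _ | _ <;> simp only <;> split_ifs <;> simp_all
  · rintro ⟨p, i⟩ ⟨p', i'⟩ h1 h2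
    have h3 := mem_pair port h1
    have h4 := mem_pair port h2
    simp only at h3 h4
    clear h1 h2
    rcases e : act port p i with _ | _ | _ <;> rcases e' : act port p' i' with _ | _ | _ <;>
      simp only [e, e'] at h3 h4 <;> (try split_ifs at h3) <;> (try split_ifs at h4) <;>
      simp at h3 h4
    all_goals first
      | (obtain rfl := h3; rw [act_inj port hp e e'])
      | (obtain ⟨rfl, rfl⟩ := h3; rfl)
      | (obtain ⟨rfl, rfl⟩ := h4; rfl)
      | (rename_i a b; rw [h3, a, b])
      | (rename_i a; exact (a h3.2).elim)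
      | (rename_i a; exact (a h4.2).elim)

theorem pref_pair (d : J → Bool) {p p' i i' s s'}
    (h : pair port (d p) p i ++ s = pair port (d p') p' i' ++ s') : p = p' ∧ i = i' := by
  unfold pair at h
  rcases e : act port p i with _ | x <;> rcases e' : act port p' i' with _ | x' <;>
    simp only [e, e'] at h <;> split_ifs at h <;> simp at h
  all_goals first
    | (obtain ⟨rfl, ⟨-, rfl⟩, -⟩ := h; exact ⟨rfl, act_inj port hp e e'⟩)
    | (obtain ⟨⟨rfl, rfl⟩, -⟩ := h; exact ⟨rfl, act_inj port hp e e'⟩)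
    | (obtain ⟨rfl, ⟨-, rfl⟩, -⟩ := h; exact ⟨rfl, rfl⟩)
    | (obtain ⟨⟨rfl, rfl⟩, -⟩ := h; simp_all)

omit hp

def items (c : Cfg T) : List (It T) :=
  lw :: (c.1.reverse.map cell ++ tok c.2.1 :: c.2.2.map cell ++ [rw])

def Aw (p : J) (c : Cfg T) : List (Sy J T) := (items c).map (A p)

def Lw (p : J) (m : List (It T)) : List (Sy J T) := m.flatMap fun i => [N p, B p i]
def Rw (p : J) (m : List (It T)) : List (Sy J T) := m.flatMap fun i => [B p i, N p]

theorem LRw (p : J) (m : List (It T)) (s) : N p :: (Rw p m ++ s) = Lw p m ++ N p :: s := by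
  induction m with
  | nil => rfl
  | cons y r ih => simp only [Rw, Lw, flatMap_cons, cons_append, nil_append] at ih ⊢; rw [ih]

theorem single_cells (c p : J) (m : List Bool) :
    (m.map cell).flatMap (single port w c p) = (m.map cell).map (A c) := by
  induction m with
  | nil => rfl
  | cons x m ih => simp only [map_cons, flatMap_cons, ih]; rfl

theorem pair_cells (d) (p : J) (m : List Bool) :
    (m.map cell).flatMap (pair port d p) = if d then Rw p (m.map cell) else Lw p (m.map cell) := by
  induction m with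
  | nil => simp [Rw, Lw]
  | cons x m ih => simp only [map_cons, flatMap_cons, ih]; cases d <;> simp [pair, act, Rw, Lw]

theorem single_idle (c p : J) (z : Cfg T) (h : act port p (tok z.2.1) = none) :
    (items z).flatMap (single port w c p) = Aw c z := by
  simp only [items, Aw, flatMap_cons, flatMap_append, single_cells]
  simp only [single, h]
  simp [act]

theorem single_act (c p : J) (α t β x) (h : act port p (tok t) = some x) :
    (items (α, t, β)).flatMap (single port w c p) = Aw c (α, t, w t ++ β) := by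
  simp only [items, Aw, flatMap_cons, flatMap_append, single_cells]
  simp only [single, h]
  simp [act, wd]

theorem pair_idle (d) (p : J) (z : Cfg T) (h : act port p (tok z.2.1) = none) :
    (items z).flatMap (pair port d p) = B p lw :: (Lw p (z.1.reverse.map cell) ++
      N p :: B p (tok z.2.1) :: N p :: (Rw p (z.2.2.map cell) ++ [B p rw])) := by
  simp only [items, flatMap_cons, flatMap_append, pair_cells]
  simp only [pair, h]
  cases d <;> simp [act, LRw, -map_reverse]

def Hw (p : J) (α β : List Bool) : List (Sy J T) :=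
  B p lw :: (Lw p (α.reverse.map cell) ++ Hd p :: (Rw p (β.map cell) ++ [B p rw]))

theorem pair_true (p : J) (α t β x) (h : act port p (tok t) = some x) :
    (items (α, t, β)).flatMap (pair port true p) = Hw p (x :: α) β := by
  simp only [items, flatMap_cons, flatMap_append, pair_cells]
  simp only [pair, h]
  simp [act, LRw, Hw, Lw, -map_reverse]

theorem pair_false (p : J) (α t β x) (h : act port p (tok t) = some x) :
    (items (α, t, β)).flatMap (pair port false p) = Hw p α (x :: β) := by
  simp only [items, flatMap_cons, flatMap_append, pair_cells]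
  simp only [pair, h]
  have := LRw p (β.map (cell (T := T))) [B p rw]
  simp only [Rw] at this
  simp [act, Hw, Rw, -map_reverse, ← this]

end

section
variable {J T : Type} (M : RM J T) (σ : J → J)

noncomputable def ll : (J × It T) ⊕ (J × It T) → List (Sy J T) :=
  Sum.elim (fun z => single M.tgt M.ab z.1 z.1 z.2) fun z => pair M.src (!M.dir z.1) z.1 z.2

noncomputable def rr : (J × It T) ⊕ (J × It T) → List (Sy J T) :=
  Sum.elim (fun z => pair M.tgt (M.dir z.1) z.1 z.2) fun z => single M.src M.em (σ z.1) z.1 z.2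

theorem crit_ll : Crit (ll M) :=
  (crit_single M.tgt M.ab injective_id).sum (crit_pair M.src M.src_inj fun p => !M.dir p)
    fun a b y h1 h2 => by
      rcases mem_single _ _ h1 with rfl | ⟨⟨x, rfl⟩, -⟩ <;> simpa using mem_pair _ h2

theorem crit_rr (hσ : Injective σ) : Crit (rr M σ) :=
  (crit_pair M.tgt M.tgt_inj M.dir).sum (crit_single M.src M.em hσ)
    fun a b y h2 h1 => by
      rcases mem_single _ _ h1 with rfl | ⟨⟨x, rfl⟩, -⟩ <;> simpa using mem_pair _ h2

theorem det_round (a b c) (h1 : Round (ll M) (rr M σ) a b) (h2 : Round (ll M) (rr M σ) a c) :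
    b = c := by
  obtain ⟨u, rfl, rfl⟩ := h1
  obtain ⟨u', h, rfl⟩ := h2
  obtain ⟨m, hm, -⟩ := crit_ll M
  rw [flat_inj (fun a => ne_nil_of_mem (hm a)) ?_ u u' h]
  have mix : ∀ (p p' : J) (i i' : It T) s s', single M.tgt M.ab p p i ++ s ≠
      pair M.src (!M.dir p') p' i' ++ s' := by
    intro p p' i i' s s' h
    unfold single pair at h
    rcases e : act M.src p' i' with _ | x <;> simp only [e] at h <;> split_ifs at h <;> simp at h
  rintro (⟨p, i⟩ | ⟨p, i⟩) (⟨p', i'⟩ | ⟨p', i'⟩) s s' h
  · simp only [ll, single, Sum.elim_inl, cons_append, cons.injEq, A.injEq] at h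
    rw [h.1.1, h.1.2]
  · exact (mix _ _ _ _ _ _ h).elim
  · exact (mix _ _ _ _ _ _ h.symm).elim
  · obtain ⟨rfl, rfl⟩ := pref_pair M.src M.src_inj (fun p => !M.dir p) h
    rfl

theorem round_a (p : J) (z : Cfg T) : Round (ll M) (rr M σ)
    ((items z).flatMap (single M.tgt M.ab p p)) ((items z).flatMap (pair M.tgt (M.dir p) p)) :=
  ⟨(items z).map fun i => .inl (p, i), by simp [flatMap_map, ll], by simp [flatMap_map, rr]⟩

theorem round_b (p : J) (z : Cfg T) : Round (ll M) (rr M σ)
    ((items z).flatMap (pair M.src (!M.dir p) p)) ((items z).flatMap (single M.src M.em (σ p) p)) :=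
  ⟨(items z).map fun i => .inr (p, i), by simp [flatMap_map, ll], by simp [flatMap_map, rr]⟩

theorem idle (p : J) (z : Cfg T) (h1 : act M.tgt p (tok z.2.1) = none)
    (h2 : act M.src p (tok z.2.1) = none) :
    ReflTransGen (Round (ll M) (rr M σ)) (Aw p z) (Aw (σ p) z) := by
  have a := round_a M σ p z
  have b := round_b M σ p z
  rw [single_idle _ _ _ _ _ h1, pair_idle _ _ _ _ h1] at a
  rw [single_idle _ _ _ _ _ h2, pair_idle _ _ _ _ h2] at b
  exact .head a (.single b)

def Okp (t : T) (p : J) : Prop := ∀ j y, M.src t = some (j, y) → p = σ j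

variable (hσ : ∀ p j, ∃ n, σ^[n] p = j)
include hσ

theorem wait {p j x} (z : Cfg T) (h1 : M.tgt z.2.1 = some (j, x)) (h2 : Okp M σ z.2.1 p) :
    ReflTransGen (Round (ll M) (rr M σ)) (Aw p z) (Aw j z) := by
  have key : ∀ i ≤ Nat.find (hσ p j),
      ReflTransGen (Round (ll M) (rr M σ)) (Aw p z) (Aw (σ^[i] p) z) := by
    intro i
    induction i with
    | zero => exact fun _ => .refl
    | succ i ih =>
      intro hi
      rw [iterate_succ_apply']
      refine (ih (by omega)).trans (idle M σ _ z ?_ ?_)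
      · refine Option.eq_none_iff_forall_ne_some.2 fun y hy => ?_
        rw [act_tok, h1] at hy
        cases hy
        exact Nat.find_min (hσ p _) (Nat.lt_of_succ_le hi) rfl
      · refine Option.eq_none_iff_forall_ne_some.2 fun y hy => ?_
        have h3 := h2 _ _ ((act_tok _).1 hy)
        rw [← iterate_succ_apply' σ] at h3
        refine Nat.find_min (hσ p j) (m := Nat.find (hσ p j) - (i + 1)) (by omega) ?_
        rw [h3, ← iterate_add_apply, ← h3, Nat.sub_add_cancel hi]
        exact Nat.find_spec (hσ p j)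
  simpa only [Nat.find_spec (hσ p j)] using key _ le_rfl

theorem step_round {c d p} (s : M.Step c d) (h : Okp M σ c.2.1 p) :
    ∃ p', Okp M σ d.2.1 p' ∧ TransGen (Round (ll M) (rr M σ)) (Aw p c) (Aw p' d) := by
  cases s with
  | @R t t' j x y α β h1 h2 h3 =>
    have a := round_a M σ j (α, t, y :: β)
    have b := round_b M σ j (x :: α, t', β)
    rw [single_act _ _ _ _ _ _ _ _ ((act_tok _).2 h1), h3,
      pair_true _ _ _ _ _ _ ((act_tok _).2 h1)] at a
    rw [single_act _ _ _ _ _ _ _ _ ((act_tok _).2 h2), h3, Bool.not_true,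
      pair_false _ _ _ _ _ _ ((act_tok _).2 h2)] at b
    exact ⟨σ j, fun j' y' e => by rw [h2] at e; cases e; rfl,
      TransGen.trans_right (wait M σ hσ _ h1 h) (.head a (.single b))⟩
  | @L t t' j x y α β h1 h2 h3 =>
    have a := round_a M σ j (y :: α, t, β)
    have b := round_b M σ j (α, t', x :: β)
    rw [single_act _ _ _ _ _ _ _ _ ((act_tok _).2 h1), h3,
      pair_false _ _ _ _ _ _ ((act_tok _).2 h1)] at a
    rw [single_act _ _ _ _ _ _ _ _ ((act_tok _).2 h2), h3, Bool.not_false,
      pair_true _ _ _ _ _ _ ((act_tok _).2 h2)] at b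
    exact ⟨σ j, fun j' y' e => by rw [h2] at e; cases e; rfl,
      TransGen.trans_right (wait M σ hσ _ h1 h) (.head a (.single b))⟩

theorem steps_round {c d p} (s : ReflTransGen M.Step c d) (h : Okp M σ c.2.1 p) :
    ∃ p', Okp M σ d.2.1 p' ∧ ReflTransGen (Round (ll M) (rr M σ)) (Aw p c) (Aw p' d) := by
  induction s with
  | refl => exact ⟨p, h, .refl⟩
  | tail _ e ih =>
    obtain ⟨p', h1, h2⟩ := ih
    obtain ⟨p'', h3, h4⟩ := step_round M σ hσ e h1
    exact ⟨p'', h3, h2.trans h4.to_reflTransGen⟩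

omit hσ

theorem keep {f : T} (hf : M.tgt f = none) {w w'} (h : ∃ p, A p (tok f) ∈ w ∨ B p (tok f) ∈ w)
    (s : Round (ll M) (rr M σ) w w') : ∃ p, A p (tok f) ∈ w' ∨ B p (tok f) ∈ w' := by
  obtain ⟨u, rfl, rfl⟩ := s
  obtain ⟨p, h⟩ := h
  simp only [mem_flatMap] at h ⊢
  rcases h with ⟨⟨q, i⟩ | ⟨q, i⟩, h1, h2⟩ | ⟨⟨q, i⟩ | ⟨q, i⟩, h1, h2⟩
  · rcases mem_single _ _ h2 with h3 | ⟨⟨x, h3⟩, -⟩ <;> cases h3
    exact ⟨q, Or.inr ⟨_, h1, by cases hd : M.dir q <;> simp [rr, pair, act, hf, hd]⟩⟩
  · simpa using mem_pair _ h2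
  · rcases mem_single _ _ h2 with h3 | ⟨⟨x, h3⟩, -⟩ <;> cases h3
  · have := mem_pair _ h2
    simp only [B.injEq, reduceCtorEq, and_false, or_self, exists_false, or_false, false_or] at this
    obtain ⟨-, rfl, rfl⟩ := this
    exact ⟨σ p, Or.inl ⟨_, h1, mem_cons_self⟩⟩

end

theorem exists_round : ∃ (A B : Type) (_ : Finite A) (_ : Finite B) (l r : A → List B)
    (U₀ V₀ U₁ V₁ : List B) (z₀ z₁ : B), Crit l ∧ Crit r ∧ ¬ ComputablePred fun n =>
      ReflTransGen (Round l r) (U₀ ++ replicate n z₀ ++ V₀) (U₁ ++ replicate n z₁ ++ V₁) := by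
  obtain ⟨J, T, _, _, _, M, i, f, V, p, hp, h1, h2, ⟨⟨j, y⟩, h3⟩, h4⟩ := exists_rm
  obtain ⟨σ, hi, hσ⟩ : ∃ σ : J → J, Injective σ ∧ ∀ p j, ∃ n, σ^[n] p = j := by
    have : NeZero (Nat.card J) := ⟨Nat.card_pos.ne'⟩
    let c : J ≃ ZMod (Nat.card J) := (Finite.equivFin _).trans (ZMod.finEquiv _).toEquiv
    refine ⟨fun p => c.symm (c p + 1), fun a b h => by simpa using h, fun p j => ?_⟩
    have : ∀ n : ℕ, (fun p => c.symm (c p + 1))^[n] p = c.symm (c p + n) := by
      intro n
      induction n with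
      | zero => simp
      | succ n ih => rw [iterate_succ_apply', ih]; simp [add_assoc]
    exact ⟨(c j - c p).val, by simp [this]⟩
  have : Finite (It T) := Finite.of_surjective
    (fun z : (Bool ⊕ T) ⊕ Bool => (match z with
      | .inl (.inl x) => cell x
      | .inl (.inr t) => tok t
      | .inr true => lw
      | .inr false => rw : It T)) (by
      rintro (x | t | _ | _)
      exacts [⟨.inl (.inl x), rfl⟩, ⟨.inl (.inr t), rfl⟩, ⟨.inr true, rfl⟩, ⟨.inr false, rfl⟩])
  have : Finite (Sy J T) := Finite.of_surjective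
    (fun z : J × It T × Fin 4 => (![A z.1 z.2.1, B z.1 z.2.1, N z.1, Hd z.1] z.2.2 : Sy J T)) (by
      rintro (⟨p, i⟩ | ⟨p, i⟩ | p | p)
      exacts [⟨(p, i, 0), rfl⟩, ⟨(p, i, 1), rfl⟩, ⟨(p, lw, 2), rfl⟩, ⟨(p, lw, 3), rfl⟩])
  have hw : ∀ (p : J) (t : T) n, ([lw, tok t, cell false].map (A p)) ++ replicate n (A p (cell true))
      ++ (V.map cell ++ [rw]).map (A p) = Aw p ([], t, false :: (replicate n true ++ V)) := by
    intro p t n; simp [Aw, items]
  refine ⟨_, _, inferInstance, inferInstance, ll M, rr M σ, [lw, tok i, cell false].map (A j),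
    (V.map cell ++ [rw]).map (A j), [lw, tok f, cell false].map (A (σ j)),
    (V.map cell ++ [rw]).map (A (σ j)), A j (cell true), A (σ j) (cell true), crit_ll M,
    crit_rr M σ hi, fun h => hp (h.of_eq fun n => ?_)⟩
  rw [hw j i, hw (σ j) f]
  have ok : Okp M σ i j := fun _ _ e => by rw [h1] at e; cases e
  refine ⟨fun h => by_contra fun hn => ?_, fun h => ?_⟩
  · obtain ⟨S, s1, s2, s3⟩ := (h4 n).2 hn
    refine det_not_reach (det_round M σ) (S := {w | ∃ c ∈ S, ∃ q, Okp M σ c.2.1 q ∧ w = Aw q c})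
      (F := {w | ∃ p, A p (tok f) ∈ w ∨ B p (tok f) ∈ w}) ?_ (fun w hw w' s => keep M σ h2 hw s) ?_
      ⟨_, s1, j, ok, rfl⟩ ⟨σ j, Or.inl (by simp [Aw, items])⟩ h
    · rintro _ ⟨c, hc, q, hq, rfl⟩
      obtain ⟨d, hd, s⟩ := s3 c hc
      obtain ⟨c', e, s⟩ := TransGen.head'_iff.1 s
      obtain ⟨q', a1, a2⟩ := step_round M σ hσ e hq
      obtain ⟨q'', a3, a4⟩ := steps_round M σ hσ s a1
      exact ⟨_, ⟨d, hd, q'', a3, rfl⟩, a2.trans_left a4⟩
    · rintro _ ⟨c, hc, q, -, rfl⟩ ⟨p, h⟩
      have := s2 c hc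
      simp [Aw, items, Ne.symm this] at h
  · obtain ⟨q, a1, a2⟩ := steps_round M σ hσ ((h4 n).1 h) ok
    rwa [a1 j y h3] at a2

end Pool.Agent.H.MP_6f9417_lc
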