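import Mathlib
import Pool.Agent.H.MP_6f9417_lc.Round
import Pool.Agent.H.MP_d7c5de_lc.PCP

set_option autoImplicit false

/-! Post correspondence instances with two elementary morphisms. -/

namespace Pool.Agent.H.MP_6f9417_lc

open List Relation Function
open Pool.Agent.H.MP_d7c5de_lc (Cmp cmp_cons Cmp.left Sol Sol' code code_length sol_code)

inductive Z (B : Type) | star | hash | dollar | E | sym (y : B)

inductive Lt (A : Type) | start | stop | rnd | ltr (a : A)

open Z Lt

section
variable {A B : Type} (l r : A → List B) (w₀ w₁ : List B)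

def L (w : List (Z B)) : List (Z B) := w.flatMap fun y => [star, y]
def R (w : List (Z B)) : List (Z B) := w.flatMap fun y => [y, star]

theorem LR (r : List (Z B)) : star :: R r = L r ++ [star] := by
  induction r with
  | nil => rfl
  | cons y r ih => simp only [R, L, flatMap_cons, cons_append, nil_append] at ih ⊢; rw [ih]

def hh : Lt A → List (Z B)
  | start => [star, hash]
  | stop => L (w₁.map sym ++ [E]) ++ [star, dollar]
  | rnd => [star, E]
  | ltr a => L ((l a).map sym)

def gg : Lt A → List (Z B)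
  | start => star :: hash :: star :: R (w₀.map sym ++ [E])
  | stop => [dollar]
  | rnd => [E, star]
  | ltr a => R ((r a).map sym)

def W (s p : List B) : List (Z B) := L (s.map sym ++ E :: p.map sym) ++ [star]

def Good (w : List (Z B)) : Prop := ∃ (u : List A) (s : List B),
  ReflTransGen (Round l r) w₀ (u.flatMap l ++ s) ∧ w = W s (u.flatMap r)

theorem e_start : gg r w₀ start = hh l w₁ start ++ W w₀ [] := by
  simp only [gg, hh, LR, W]; rfl

theorem e_ltr (a s p) : W (l a ++ s) p ++ gg r w₀ (ltr a) = hh l w₁ (ltr a) ++ W s (p ++ r a) := by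
  simp only [gg, hh, W, append_assoc, singleton_append, LR]
  simp [L]

theorem e_rnd (p) : W [] p ++ gg r w₀ rnd = hh l w₁ rnd ++ W p [] := by
  simp [gg, hh, W, L]

theorem e_stop : W w₁ [] ++ gg r w₀ stop = hh l w₁ stop := by simp [gg, hh, W]

theorem cmp_ltr (x : List B) (t rest) : ∀ s : List B,
    Cmp (L (x.map sym)) (L (s.map sym ++ E :: t) ++ rest) → x <+: s := by
  induction x with
  | nil => exact fun s _ => nil_prefix
  | cons y x ih =>
    rintro (_ | ⟨y', s⟩) h
    · simp [L, cmp_cons] at h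
    · simp only [L, map_cons, flatMap_cons, cons_append, nil_append, cmp_cons, true_and,
        sym.injEq] at h
      exact cons_prefix_cons.2 ⟨h.1, ih s h.2⟩

theorem cmp_stop (p x : List B) : ∀ s : List B, Cmp (L (x.map sym ++ [E]) ++ [star, dollar])
    (L (s.map sym ++ E :: p.map sym) ++ [star, dollar]) → s = x ∧ p = [] := by
  induction x with
  | nil =>
    rintro (_ | ⟨y', s⟩) h
    · cases p
      · exact ⟨rfl, rfl⟩
      · simp [L, cmp_cons] at h
    · simp [L, cmp_cons] at h
  | cons y x ih =>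
    rintro (_ | ⟨y', s⟩) h
    · simp [L, cmp_cons] at h
    · simp only [L, map_cons, flatMap_cons, cons_append, nil_append, cmp_cons, true_and,
        sym.injEq] at h
      obtain ⟨rfl, rfl⟩ := ih s h.2
      exact ⟨by rw [h.1], rfl⟩

variable (hl : ∀ a, l a ≠ []) (hr : ∀ a, r a ≠ [])
include hl hr

theorem key0 (a : Lt A) (hc : Cmp (hh l w₁ a) (gg r w₀ a)) : a = start := by
  cases a with
  | start => rfl
  | stop => cases w₁ <;> simp [hh, gg, L, cmp_cons] at hc
  | rnd => simp [hh, gg, cmp_cons] at hc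
  | ltr a =>
    obtain ⟨x, s, h1⟩ := exists_cons_of_ne_nil (hl a)
    obtain ⟨y, t, h2⟩ := exists_cons_of_ne_nil (hr a)
    simp [hh, gg, h1, h2, L, R, cmp_cons] at hc

omit hl in
theorem key {w : List (Z B)} (hw : Good l r w₀ w) (a : Lt A)
    (hc : Cmp (hh l w₁ a) (w ++ gg r w₀ a)) :
    (∃ w', Good l r w₀ w' ∧ w ++ gg r w₀ a = hh l w₁ a ++ w') ∨
      ReflTransGen (Round l r) w₀ w₁ := by
  obtain ⟨u, s, h1, rfl⟩ := hw
  cases a with
  | start => cases s <;> simp [hh, W, L, cmp_cons] at hc
  | stop =>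
    obtain ⟨rfl, h2⟩ := cmp_stop (u.flatMap r) w₁ s (by simpa [hh, gg, W] using hc)
    cases u with
    | nil => exact Or.inr h1
    | cons a u => simp [hr] at h2
  | rnd =>
    cases s with
    | nil =>
      exact Or.inl ⟨_, ⟨[], _, h1.tail ⟨u, by simp, rfl⟩, rfl⟩, e_rnd l r w₀ w₁ _⟩
    | cons y s => simp [hh, W, L, cmp_cons] at hc
  | ltr a =>
    obtain ⟨s, rfl⟩ := cmp_ltr (l a) _ _ s (by simpa only [hh, W, append_assoc] using hc)
    exact Or.inl ⟨_, ⟨u ++ [a], s, by simpa using h1, by simp⟩, e_ltr l r w₀ w₁ a s _⟩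

theorem ovf (u : List (Lt A)) (hu : u ≠ [])
    (hc : Cmp (u.flatMap (hh l w₁)) (u.flatMap (gg r w₀))) :
    (∃ w, Good l r w₀ w ∧ u.flatMap (gg r w₀) = u.flatMap (hh l w₁) ++ w) ∨
      ReflTransGen (Round l r) w₀ w₁ := by
  induction u using List.reverseRecOn with
  | nil => exact (hu rfl).elim
  | append_singleton u a ih =>
    simp only [flatMap_append, flatMap_singleton] at hc ⊢
    by_cases h : u = []
    · subst h
      obtain rfl := key0 l r w₀ w₁ hl hr a hc
      exact Or.inl ⟨_, ⟨[], w₀, .refl, rfl⟩, e_start l r w₀ w₁⟩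
    · rcases ih h hc.left with ⟨w, h1, h2⟩ | h1
      · rw [h2, append_assoc] at hc ⊢
        rcases key l r w₀ w₁ hr h1 a (by simpa only [Cmp, prefix_append_right_inj] using hc) with
          ⟨w', h3, h4⟩ | h3
        · exact Or.inl ⟨w', h3, by rw [h4, append_assoc]⟩
        · exact Or.inr h3
      · exact Or.inr h1

theorem sol_iff : Sol (hh l w₁) (gg r w₀) ↔ ReflTransGen (Round l r) w₀ w₁ := by
  constructor
  · rintro ⟨x, h1, h2⟩
    rcases ovf l r w₀ w₁ hl hr x h1 (Or.inl (h2 ▸ prefix_rfl)) with ⟨w, ⟨u, s, -, rfl⟩, h3⟩ | h3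
    · simp [h2, W] at h3
    · exact h3
  · intro h
    have rot : ∀ (us : List A) p (u : List (Lt A)),
        u.flatMap (gg r w₀) = u.flatMap (hh l w₁) ++ W (us.flatMap l) p →
        ∃ u : List (Lt A), u.flatMap (gg r w₀) = u.flatMap (hh l w₁) ++ W [] (p ++ us.flatMap r) := by
      intro us
      induction us with
      | nil => intro p u h; exact ⟨u, by simpa using h⟩
      | cons a us ih =>
        intro p u h
        rw [flatMap_cons] at h
        simpa using ih (p ++ r a) (u ++ [ltr a]) (by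
          simp only [flatMap_append, flatMap_singleton, h, append_assoc, e_ltr l r w₀ w₁])
    have : ∀ x, ReflTransGen (Round l r) w₀ x →
        ∃ u : List (Lt A), u.flatMap (gg r w₀) = u.flatMap (hh l w₁) ++ W x [] := by
      intro x h
      induction h with
      | refl => exact ⟨[start], by simp [e_start l r w₀ w₁]⟩
      | tail _ e ih =>
        obtain ⟨us, rfl, rfl⟩ := e
        obtain ⟨u, hu⟩ := ih
        obtain ⟨u', h'⟩ := rot us [] u hu
        exact ⟨u' ++ [rnd], by simp only [flatMap_append, flatMap_singleton, h', append_assoc,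
          e_rnd l r w₀ w₁, nil_append]⟩
    obtain ⟨u, hu⟩ := this _ h
    exact ⟨u ++ [stop], by simp, by
      simp only [flatMap_append, flatMap_singleton, hu, append_assoc, e_stop l r w₀ w₁]⟩

omit hl hr

theorem crit_hh (h : Crit l) : Crit (hh l w₁) := by
  obtain ⟨m, h1, h2⟩ := h
  refine ⟨fun a => match a with
    | start => hash | stop => dollar | rnd => E | ltr a => sym (m a), ?_, ?_⟩
  · rintro (_ | _ | _ | a) <;> simp [hh, L, h1]
  · rintro (_ | _ | _ | a) (_ | _ | _ | a') <;> simp [hh, L]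
    exact h2 a a'

theorem crit_gg (h : Crit r) : Crit (gg r w₀) := by
  obtain ⟨m, h1, h2⟩ := h
  refine ⟨fun a => match a with
    | start => hash | stop => dollar | rnd => E | ltr a => sym (m a), ?_, ?_⟩
  · rintro (_ | _ | _ | a) <;> simp [gg, R, h1]
  · rintro (_ | _ | _ | a) (_ | _ | _ | a') <;> simp [gg, R]
    exact h2 a a'

end

def Elem (H : List (List ℕ)) : Prop := ∀ m : ℕ, m < H.length → ∀ f : Fin H.length → List (Fin m),
  ∀ k : Fin m → List ℕ, ¬ ∀ i : Fin H.length, (f i).flatMap k = H.getD i []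

theorem elem_code {α β : Type} {k : ℕ} (e : α ≃ Fin k) (c : β → ℕ) (hc : Injective c)
    {h : α → List β} (hh : Crit h) : Elem (code e c h) := by
  obtain ⟨m, h1, h2⟩ := hh
  intro n hn f g hf
  have hk := code_length e c h
  have h3 : ∀ a, (f ((e a).cast hk.symm)).flatMap g = (h a).map c := fun a => by
    rw [hf]; simp [code]
  have h4 : ∀ a, ∃ y ∈ f ((e a).cast hk.symm), c (m a) ∈ g y := fun a =>
    mem_flatMap.1 (h3 a ▸ mem_map_of_mem (h1 a))
  choose φ h5 h6 using h4
  have h7 : ∀ a a', φ a = φ a' → m a ∈ h a' := fun a a' e' => by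
    have : c (m a) ∈ (h a').map c := h3 a' ▸ mem_flatMap.2 ⟨_, h5 a', e' ▸ h6 a⟩
    obtain ⟨y, h8, h9⟩ := mem_map.1 this
    exact hc h9 ▸ h8
  have := Fintype.card_le_of_injective (φ ∘ e.symm) fun i j h =>
    e.symm.injective (h2 _ _ (h7 _ _ h) (h7 _ _ h.symm))
  simp only [Fintype.card_fin] at this
  omega

theorem prim_mid (U V X : List ℕ) : Primrec fun n : ℕ => U ++ (replicate n X).flatten ++ V := by
  have : Primrec fun n : ℕ => (range n).flatMap fun _ => X :=
    Primrec.list_flatMap Primrec.list_range (Primrec.const _).to₂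
  refine (Primrec.list_append.comp (Primrec.list_append.comp (Primrec.const U) this)
    (Primrec.const V)).of_eq fun n => ?_
  simp [flatMap]

theorem undec_elem : ∃ H G : ℕ → List (List ℕ), Primrec H ∧ Primrec G ∧
    (∀ n, (H n).length = (G n).length ∧ Elem (H n) ∧ Elem (G n)) ∧
    ¬ ComputablePred fun n => Sol' (H n) (G n) := by
  obtain ⟨A, B, _, _, l, r, U₀, V₀, U₁, V₁, z₀, z₁, hl, hr, h⟩ := exists_round
  have : Finite (Z B) := Finite.of_surjective
    (fun z : Fin 4 ⊕ B => (match z with
      | .inl i => ![star, hash, dollar, E] i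
      | .inr y => sym y : Z B)) (by
      rintro (_ | _ | _ | _ | y)
      exacts [⟨.inl 0, rfl⟩, ⟨.inl 1, rfl⟩, ⟨.inl 2, rfl⟩, ⟨.inl 3, rfl⟩, ⟨.inr y, rfl⟩])
  have : Finite (Lt A) := Finite.of_surjective
    (fun z : Fin 3 ⊕ A => (match z with
      | .inl i => ![start, stop, rnd] i
      | .inr y => ltr y : Lt A)) (by
      rintro (_ | _ | _ | y)
      exacts [⟨.inl 0, rfl⟩, ⟨.inl 1, rfl⟩, ⟨.inl 2, rfl⟩, ⟨.inr y, rfl⟩])
  let e := Finite.equivFin (Lt A)
  obtain ⟨c, hc⟩ := exists_injective_nat (Z B)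
  refine ⟨fun n => code e c (hh l (U₁ ++ replicate n z₁ ++ V₁)),
    fun n => code e c (gg r (U₀ ++ replicate n z₀ ++ V₀)), Primrec.list_ofFn fun i => ?_,
    Primrec.list_ofFn fun i => ?_, fun n => ⟨by simp only [code_length],
      elem_code e c hc (crit_hh _ _ hl), elem_code e c hc (crit_gg _ _ hr)⟩,
    fun h' => h (h'.of_eq fun n => ?_)⟩
  · cases e.symm i with
    | start => exact Primrec.const _
    | stop =>
      refine (prim_mid ((L (U₁.map sym)).map c)
        ((L (V₁.map sym ++ [E]) ++ [star, dollar]).map c) [c star, c (sym z₁)]).of_eq fun n => ?_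
      simp [hh, L, flatMap]
    | rnd => exact Primrec.const _
    | ltr a => exact Primrec.const ((hh l [] (ltr a)).map c)
  · cases e.symm i with
    | start =>
      refine (prim_mid ((star :: hash :: star :: R (U₀.map sym)).map c)
        ((R (V₀.map sym ++ [E])).map c) [c (sym z₀), c star]).of_eq fun n => ?_
      simp [gg, R, flatMap]
    | stop => exact Primrec.const _
    | rnd => exact Primrec.const _
    | ltr a => exact Primrec.const ((gg r [] (ltr a)).map c)
  · obtain ⟨m, h1, -⟩ := hl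
    obtain ⟨m', h2, -⟩ := hr
    rw [sol_code e c hc, sol_iff l r _ _ (fun a => ne_nil_of_mem (h1 a))
      fun a => ne_nil_of_mem (h2 a)]

end Pool.Agent.H.MP_6f9417_lc
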